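/-
MP_96d021_co.ExplicitLinearBound.  Strong chromatic number versus derived-graph chromatic number:
the strong chromatic number is at most linear in the rank, with an explicit factor.
All definitions of the statement are in this file (except those of Mathlib).
-/
import Mathlib
import Pool.Agent.Lib.SC10.Strong

set_option autoImplicit false

namespace Pool.Agent.Results.MP_96d021_co.ExplicitLinearBound

/-- A finite hypergraph: a finite set `V` of vertices and a finite family of edges (an edge may be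
repeated), at least one of them nonempty. -/
structure Hypergraph where
  V : Type
  E : Type
  finV : Fintype V
  finE : Fintype E
  edge : E → Finset V
  exists_nonempty : ∃ i, (edge i).Nonempty

attribute [instance] Hypergraph.finV Hypergraph.finE

/-- the largest size of an edge -/
def rank (H : Hypergraph) : ℕ := Finset.univ.sup fun i => (H.edge i).card

/-- the numbers `k` for which some map from the vertices to `k` colours is injective on every edge -/
def StrongNumbers (H : Hypergraph) : Set ℕ :=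
  {k | ∃ c : H.V → Fin k, ∀ i, ∀ u ∈ H.edge i, ∀ v ∈ H.edge i, c u = c v → u = v}

/-- the strong chromatic number -/
noncomputable def chiS (H : Hypergraph) : ℕ := sInf (StrongNumbers H)

/-- `G` is a derived graph of `H`: every edge `i` with at least two vertices chooses two distinct
vertices `a i`, `b i` of it, and the edges of `G` are the chosen pairs -/
def IsDerived (H : Hypergraph) (G : SimpleGraph H.V) : Prop :=
  ∃ a b : H.E → H.V,
    (∀ i, 2 ≤ (H.edge i).card → a i ∈ H.edge i ∧ b i ∈ H.edge i ∧ a i ≠ b i) ∧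
    ∀ x y, G.Adj x y ↔ ∃ i, 2 ≤ (H.edge i).card ∧ ((x = a i ∧ y = b i) ∨ (x = b i ∧ y = a i))

/-- the chromatic numbers of the derived graphs -/
def DerivedNumbers (H : Hypergraph) : Set ℕ :=
  {k | ∃ G : SimpleGraph H.V, IsDerived H G ∧ G.chromaticNumber = (k : ℕ∞)}

/-- the largest chromatic number of a derived graph -/
noncomputable def chiD (H : Hypergraph) : ℕ := sSup (DerivedNumbers H)

theorem derived_of_choice (H : Hypergraph) (p : H.E → H.V × H.V)
    (hp : ∀ i, 2 ≤ (H.edge i).card → (p i).1 ∈ H.edge i ∧ (p i).2 ∈ H.edge i ∧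
      (p i).1 ≠ (p i).2) :
    ∃ G : SimpleGraph H.V, IsDerived H G ∧
      ∀ i, 2 ≤ (H.edge i).card → G.Adj (p i).1 (p i).2 := by
  refine ⟨⟨fun x y => ∃ i, 2 ≤ (H.edge i).card ∧
    ((x = (p i).1 ∧ y = (p i).2) ∨ (x = (p i).2 ∧ y = (p i).1)), ?_, ?_⟩,
    ⟨fun i => (p i).1, fun i => (p i).2, hp, fun x y => Iff.rfl⟩,
    fun i hi => ⟨i, hi, Or.inl ⟨rfl, rfl⟩⟩⟩
  · refine ⟨?_⟩
    rintro x y ⟨i, hi, h | h⟩
    · exact ⟨i, hi, Or.inr ⟨h.2, h.1⟩⟩
    · exact ⟨i, hi, Or.inl ⟨h.2, h.1⟩⟩
  · refine ⟨?_⟩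
    rintro x ⟨i, hi, h | h⟩
    · exact (hp i hi).2.2 (h.1.symm.trans h.2)
    · exact (hp i hi).2.2 (h.2.symm.trans h.1)

theorem nat_chromatic (H : Hypergraph) (G : SimpleGraph H.V) :
    ∃ k : ℕ, G.chromaticNumber = (k : ℕ∞) ∧ k ≤ Fintype.card H.V ∧ G.Colorable k := by
  have h1 : G.Colorable (Fintype.card H.V) := G.colorable_of_fintype
  have h2 := h1.chromaticNumber_le
  have h3 : G.chromaticNumber ≠ ⊤ := fun h => by
    rw [h] at h2
    exact absurd h2 (by simp)
  obtain ⟨k, hk⟩ := ENat.ne_top_iff_exists.mp h3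
  refine ⟨k, hk.symm, ?_, ?_⟩
  · rw [← hk] at h2
    exact_mod_cast h2
  · exact SimpleGraph.chromaticNumber_le_iff_colorable.mp hk.symm.le

theorem exists_choice (H : Hypergraph) : ∃ p : H.E → H.V × H.V,
    ∀ i, 2 ≤ (H.edge i).card → (p i).1 ∈ H.edge i ∧ (p i).2 ∈ H.edge i ∧ (p i).1 ≠ (p i).2 := by
  classical
  obtain ⟨i0, x0, _⟩ := H.exists_nonempty
  have h : ∀ i, ∃ q : H.V × H.V,
      2 ≤ (H.edge i).card → q.1 ∈ H.edge i ∧ q.2 ∈ H.edge i ∧ q.1 ≠ q.2 := by
    intro i
    by_cases h2 : 2 ≤ (H.edge i).card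
    · obtain ⟨a, ha, b, hb, hab⟩ := Finset.one_lt_card.mp h2
      exact ⟨(a, b), fun _ => ⟨ha, hb, hab⟩⟩
    · exact ⟨(x0, x0), fun h3 => absurd h3 h2⟩
  choose p hp using h
  exact ⟨p, hp⟩

theorem greatest (H : Hypergraph) : IsGreatest (DerivedNumbers H) (chiD H) := by
  have hne : (DerivedNumbers H).Nonempty := by
    obtain ⟨p, hp⟩ := exists_choice H
    obtain ⟨G, hG, _⟩ := derived_of_choice H p hp
    obtain ⟨k, hk, _⟩ := nat_chromatic H G
    exact ⟨k, G, hG, hk⟩
  have hbdd : BddAbove (DerivedNumbers H) := by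
    refine ⟨Fintype.card H.V, ?_⟩
    rintro k ⟨G, _, hk⟩
    obtain ⟨k', hk', hle, _⟩ := nat_chromatic H G
    have : k = k' := by
      have h := hk.symm.trans hk'
      exact_mod_cast h
    omega
  exact ⟨Nat.sSup_mem hne hbdd, fun k hk => le_csSup hbdd hk⟩

theorem least (H : Hypergraph) : IsLeast (StrongNumbers H) (chiS H) := by
  have hne : (StrongNumbers H).Nonempty := by
    refine ⟨Fintype.card H.V, Fintype.equivFin H.V, fun i u _ v _ h => ?_⟩
    exact (Fintype.equivFin H.V).injective h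
  exact ⟨Nat.sInf_mem hne, fun k hk => Nat.sInf_le hk⟩

theorem bound (H : Hypergraph) :
    chiS H ≤ 545 * max (chiD H) 2 ^ (max (chiD H) 2 + 4) * rank H := by
  classical
  obtain ⟨i0, x0, hx0⟩ := H.exists_nonempty
  have : Nonempty H.V := ⟨x0⟩
  set k := max (chiD H) 2 with hk
  have hk2 : 2 ≤ k := le_max_right _ _
  have hrank : ∀ i, (H.edge i).card ≤ rank H := fun i =>
    Finset.le_sup (f := fun i => (H.edge i).card) (Finset.mem_univ i)
  have hr1 : 1 ≤ rank H := le_trans (Finset.card_pos.mpr ⟨x0, hx0⟩) (hrank i0)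
  have hall : Pool.Agent.Lib.MP_96d021.AllCol H.edge k := by
    intro p hp
    obtain ⟨G, hG, hadj⟩ := derived_of_choice H p hp
    obtain ⟨m, hm, _, hcol⟩ := nat_chromatic H G
    have hmD : m ≤ chiD H := (greatest H).2 ⟨G, hG, hm⟩
    obtain ⟨C⟩ := hcol.mono (hmD.trans (le_max_left _ 2))
    exact ⟨fun x => C x, fun i hi => C.valid (hadj i hi)⟩
  obtain ⟨c, hc⟩ := SC10.strong hk2 hall hrank hr1
  have hcard : Fintype.card (Fin (544 * k ^ 5 * rank H + 1) × (Fin (k - 1) → Fin k)) =
      (544 * k ^ 5 * rank H + 1) * k ^ (k - 1) := by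
    simp [Fintype.card_prod]
  have hmem : (544 * k ^ 5 * rank H + 1) * k ^ (k - 1) ∈ StrongNumbers H := by
    refine ⟨fun x => Fintype.equivFinOfCardEq hcard (c x), fun i u hu v hv huv => ?_⟩
    exact hc i u hu v hv ((Fintype.equivFinOfCardEq hcard).injective huv)
  refine le_trans ((least H).2 hmem) ?_
  have h1 : 1 ≤ k ^ 5 * rank H := by
    have : 0 < k ^ 5 * rank H := by positivity
    exact this
  have h2 : k ^ (k + 4) = k ^ 5 * k ^ (k - 1) := by
    rw [← pow_add]
    congr 1
    omega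
  calc (544 * k ^ 5 * rank H + 1) * k ^ (k - 1)
      ≤ (544 * k ^ 5 * rank H + k ^ 5 * rank H) * k ^ (k - 1) :=
        Nat.mul_le_mul_right _ (Nat.add_le_add_left h1 _)
    _ = 545 * (k ^ 5 * k ^ (k - 1)) * rank H := by ring
    _ = 545 * k ^ (k + 4) * rank H := by rw [h2]

/-- `chiS`, `chiD` are the strong chromatic number and the largest chromatic number of a derived
graph (minimum and maximum are attained), and `chiS H` is at most linear in the rank, with the
factor `545 k ^ (k + 4)`, `k = max (chiD H) 2`. -/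
theorem result :
    (∀ H : Hypergraph, IsLeast (StrongNumbers H) (chiS H)) ∧
    (∀ H : Hypergraph, IsGreatest (DerivedNumbers H) (chiD H)) ∧
    ∀ H : Hypergraph, chiS H ≤ 545 * max (chiD H) 2 ^ (max (chiD H) 2 + 4) * rank H :=
  ⟨least, greatest, bound⟩

end Pool.Agent.Results.MP_96d021_co.ExplicitLinearBound
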